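import Pool.Agent.C2.Stmts

set_option autoImplicit false

namespace Pool.Agent.C2.H23

open Pool.Agent.C2 Finset

section

variable {F : Type} [Field F] [Fintype F] {X : Type} [Fintype X]

theorem sum_sym (B : Matrix X X F) (hB : ∀ x y, B x y = B y x) (u w : X → F) :
    ∑ x, (∑ y, B x y * u y) * w x = ∑ x, u x * (∑ y, B x y * w y) := by
  simp only [Finset.sum_mul, Finset.mul_sum]
  rw [Finset.sum_comm]
  refine Finset.sum_congr rfl fun x _ => Finset.sum_congr rfl fun y _ => ?_
  rw [hB y x]; ring

/-- duality: if `b` is not in the image there is a kernel vector with pairing `1` -/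
theorem exists_ker (b : X → F) (B : Matrix X X F) (hB : ∀ x y, B x y = B y x)
    (h : ¬ ∃ u : X → F, ∀ x, ∑ y, B x y * u y + b x = 0) :
    ∃ w : X → F, (∀ x, ∑ y, B x y * w y = 0) ∧ ∑ x, b x * w x = 1 := by
  classical
  let T : (X → F) →ₗ[F] (X → F) :=
    { toFun := fun u x => ∑ y, B x y * u y
      map_add' := by
        intro u v; funext x
        simp only [Pi.add_apply, mul_add, Finset.sum_add_distrib]
      map_smul' := by
        intro c u; funext x
        simp only [Pi.smul_apply, smul_eq_mul, RingHom.id_apply, Finset.mul_sum]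
        exact Finset.sum_congr rfl fun y _ => by ring }
  have hb : b ∉ LinearMap.range T := by
    rintro ⟨u, hu⟩
    apply h
    refine ⟨fun y => - u y, fun x => ?_⟩
    have h1 : ∑ y, B x y * u y = b x := congrFun hu x
    have h2 : ∑ y, B x y * (- u y) = - ∑ y, B x y * u y := by
      rw [← Finset.sum_neg_distrib]
      exact Finset.sum_congr rfl fun y _ => by ring
    rw [h2, h1]; ring
  obtain ⟨φ, hφ1, hφ2⟩ := Submodule.exists_dual_map_eq_bot_of_notMem hb inferInstance
  have hφ : ∀ v : X → F, φ v = ∑ x, v x * φ (Pi.single x 1) := by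
    intro v
    conv_lhs => rw [pi_eq_sum_univ' v]
    rw [map_sum]
    refine Finset.sum_congr rfl fun x _ => ?_
    rw [map_smul, smul_eq_mul]
  have hT : ∀ u, φ (T u) = 0 := by
    intro u
    have h1 : φ (T u) ∈ (LinearMap.range T).map φ := ⟨T u, ⟨u, rfl⟩, rfl⟩
    rw [hφ2] at h1
    exact (Submodule.mem_bot F).1 h1
  refine ⟨fun x => (φ b)⁻¹ * φ (Pi.single x 1), fun x => ?_, ?_⟩
  · have h1 := hT (Pi.single x 1)
    rw [hφ] at h1
    have h2 : ∀ y, T (Pi.single x 1) y = B y x := by
      intro y
      change ∑ z, B y z * (Pi.single x (1 : F) : X → F) z = B y x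
      rw [Finset.sum_eq_single x]
      · simp
      · intro z _ hz; simp [Pi.single_apply, hz]
      · intro hx; exact absurd (Finset.mem_univ x) hx
    simp only [h2] at h1
    have h3 : ∑ y, B x y * ((φ b)⁻¹ * φ (Pi.single y 1)) =
        (φ b)⁻¹ * ∑ y, B y x * φ (Pi.single y 1) := by
      rw [Finset.mul_sum]
      exact Finset.sum_congr rfl fun y _ => by rw [hB x y]; ring
    rw [h3, h1, mul_zero]
  · have h1 : ∑ x, b x * ((φ b)⁻¹ * φ (Pi.single x 1)) = (φ b)⁻¹ * φ b := by
      have h4 : ∑ x, b x * ((φ b)⁻¹ * φ (Pi.single x 1)) =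
          (φ b)⁻¹ * ∑ x, b x * φ (Pi.single x 1) := by
        rw [Finset.mul_sum]
        exact Finset.sum_congr rfl fun y _ => by ring
      rw [h4, ← hφ b]
    rw [h1]
    exact inv_mul_cancel₀ hφ1

theorem key1 (b : X → F) (B : Matrix X X F) (hB : ∀ x y, B x y = B y x)
    (h : ¬ ∃ u : X → F, ∀ x, ∑ y, B x y * u y + b x = 0) :
    rB b B = 0 ∧ ∀ a, Fintype.card F * cE a b B = kB B := by
  constructor
  · unfold rB
    haveI : IsEmpty {u : X → F // ∀ x, ∑ y, B x y * u y + b x = 0} :=
      ⟨fun u => h ⟨u.1, u.2⟩⟩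
    exact Nat.card_of_isEmpty
  · intro a
    obtain ⟨w, hw, hw1⟩ := exists_ker b B hB h
    unfold cE kB
    rw [← Nat.card_eq_fintype_card, ← Nat.card_prod]
    apply Nat.card_congr
    have hc : ∀ p : {p : F × (X → F) // a * p.1 + ∑ x, b x * p.2 x = 0 ∧
        ∀ x, ∑ y, B x y * p.2 y + b x * p.1 = 0}, p.1.1 = 0 := by
      rintro ⟨⟨c, u⟩, h1, h2⟩
      by_contra hc
      simp only at hc h2
      apply h
      refine ⟨fun y => c⁻¹ * u y, fun x => ?_⟩
      have h3 : ∑ y, B x y * (c⁻¹ * u y) = c⁻¹ * ∑ y, B x y * u y := by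
        rw [Finset.mul_sum]
        exact Finset.sum_congr rfl fun y _ => by ring
      rw [h3]
      have h4 := h2 x
      have h5 : c⁻¹ * (∑ y, B x y * u y + b x * c) = 0 := by rw [h4, mul_zero]
      rw [mul_add] at h5
      rw [← h5]
      field_simp
    have lin : ∀ (t : F) (u : X → F) (x : X), ∑ y, B x y * (u y + t * w y) =
        ∑ y, B x y * u y := by
      intro t u x
      have h3 : ∑ y, B x y * (u y + t * w y) = ∑ y, B x y * u y + t * ∑ y, B x y * w y := by
        rw [Finset.mul_sum, ← Finset.sum_add_distrib]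
        exact Finset.sum_congr rfl fun y _ => by ring
      rw [h3, hw x, mul_zero, add_zero]
    have linb : ∀ (t : F) (u : X → F), ∑ x, b x * (u x + t * w x) = ∑ x, b x * u x + t := by
      intro t u
      have h3 : ∑ x, b x * (u x + t * w x) = ∑ x, b x * u x + t * ∑ x, b x * w x := by
        rw [Finset.mul_sum, ← Finset.sum_add_distrib]
        exact Finset.sum_congr rfl fun y _ => by ring
      rw [h3, hw1, mul_one]
    exact
      { toFun := fun p => ⟨fun x => p.2.1.2 x + p.1 * w x, fun x => by
          rw [lin]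
          have h1 := p.2.2.2 x
          rw [hc p.2, mul_zero, add_zero] at h1
          exact h1⟩
        invFun := fun u => ⟨∑ x, b x * u.1 x, ⟨(0, fun x => u.1 x + (- ∑ x, b x * u.1 x) * w x),
          by
            constructor
            · simp only [mul_zero, zero_add]
              rw [linb]; ring
            · intro x
              simp only [mul_zero, add_zero]
              rw [lin]
              exact u.2 x⟩⟩
        left_inv := by
          rintro ⟨t, ⟨⟨c, u⟩, h1, h2⟩⟩
          have hc0 := hc ⟨⟨c, u⟩, h1, h2⟩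
          simp only at hc0
          subst hc0
          simp only [mul_zero, zero_add] at h1
          have h3 : ∑ x, b x * (u x + t * w x) = t := by rw [linb, h1, zero_add]
          simp only [h3]
          refine Prod.ext rfl (Subtype.ext (Prod.ext rfl ?_))
          funext x
          simp only
          ring
        right_inv := by
          rintro ⟨u, hu⟩
          apply Subtype.ext
          funext x
          simp only
          ring }

theorem key2 (b : X → F) (B : Matrix X X F) (hB : ∀ x y, B x y = B y x) (x0 : X → F)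
    (h0 : ∀ x, ∑ y, B x y * x0 y + b x = 0) :
    rB b B = kB B ∧ cE (- ∑ x, b x * x0 x) b B = Fintype.card F * kB B ∧
      ∀ a, a ≠ - ∑ x, b x * x0 x → cE a b B = kB B := by
  have hb : ∀ x, b x = - ∑ y, B x y * x0 y := fun x => by
    have := h0 x
    exact eq_neg_of_add_eq_zero_right this
  have hperp : ∀ w : X → F, (∀ x, ∑ y, B x y * w y = 0) → ∑ x, b x * w x = 0 := by
    intro w hw
    have h1 : ∑ x, b x * w x = - ∑ x, (∑ y, B x y * x0 y) * w x := by
      rw [← Finset.sum_neg_distrib]
      exact Finset.sum_congr rfl fun x _ => by rw [hb x]; ring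
    rw [h1, sum_sym B hB]
    simp [hw]
  have lin : ∀ (t : F) (u : X → F) (x : X), ∑ y, B x y * (u y + t * x0 y) =
      ∑ y, B x y * u y - t * b x := by
    intro t u x
    have h3 : ∑ y, B x y * (u y + t * x0 y) = ∑ y, B x y * u y + t * ∑ y, B x y * x0 y := by
      rw [Finset.mul_sum, ← Finset.sum_add_distrib]
      exact Finset.sum_congr rfl fun y _ => by ring
    rw [h3, hb x]; ring
  have linb : ∀ (t : F) (u : X → F), ∑ x, b x * (u x + t * x0 x) =
      ∑ x, b x * u x + t * ∑ x, b x * x0 x := by
    intro t u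
    rw [Finset.mul_sum, ← Finset.sum_add_distrib]
    exact Finset.sum_congr rfl fun y _ => by ring
  refine ⟨?_, ?_, ?_⟩
  · unfold rB kB
    apply Nat.card_congr
    exact
      { toFun := fun u => ⟨fun x => u.1 x + (-1) * x0 x, fun x => by
          rw [lin]
          have := u.2 x
          linear_combination this⟩
        invFun := fun u => ⟨fun x => u.1 x + 1 * x0 x, fun x => by
          rw [lin]
          have := u.2 x
          linear_combination this⟩
        left_inv := by
          rintro ⟨u, hu⟩
          apply Subtype.ext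
          funext x
          simp only
          ring
        right_inv := by
          rintro ⟨u, hu⟩
          apply Subtype.ext
          funext x
          simp only
          ring }
  · unfold cE kB
    rw [← Nat.card_eq_fintype_card, ← Nat.card_prod]
    apply Nat.card_congr
    exact
      { toFun := fun p => ⟨p.1.1, ⟨fun x => p.1.2 x + (- p.1.1) * x0 x, fun x => by
          rw [lin]
          have := p.2.2 x
          linear_combination this⟩⟩
        invFun := fun u => ⟨(u.1, fun x => u.2.1 x + u.1 * x0 x), by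
          constructor
          · simp only
            rw [linb, hperp u.2.1 u.2.2]
            ring
          · intro x
            simp only
            rw [lin, u.2.2 x]
            ring⟩
        left_inv := by
          rintro ⟨⟨c, u⟩, hu⟩
          apply Subtype.ext
          refine Prod.ext rfl ?_
          funext x
          simp only
          ring
        right_inv := by
          rintro ⟨c, ⟨u, hu⟩⟩
          refine Prod.ext rfl (Subtype.ext ?_)
          funext x
          simp only
          ring }
  · intro a ha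
    unfold cE kB
    apply Nat.card_congr
    have hc : ∀ p : {p : F × (X → F) // a * p.1 + ∑ x, b x * p.2 x = 0 ∧
        ∀ x, ∑ y, B x y * p.2 y + b x * p.1 = 0}, p.1.1 = 0 := by
      rintro ⟨⟨c, u⟩, h1, h2⟩
      simp only at h1 h2 ⊢
      have h3 : ∀ x, ∑ y, B x y * (u y + (-c) * x0 y) = 0 := fun x => by
        rw [lin]
        linear_combination h2 x
      have h4 := hperp _ h3
      rw [linb] at h4
      have h5 : (a + ∑ x, b x * x0 x) * c = 0 := by linear_combination h1 - h4
      rcases mul_eq_zero.1 h5 with h6 | h6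
      · exact absurd (eq_neg_of_add_eq_zero_left h6) ha
      · exact h6
    exact
      { toFun := fun p => ⟨p.1.2, fun x => by
          have h1 := p.2.2 x
          rw [hc p, mul_zero, add_zero] at h1
          exact h1⟩
        invFun := fun u => ⟨(0, u.1), by
          constructor
          · simp only [mul_zero, zero_add]
            exact hperp u.1 u.2
          · intro x
            simp only [mul_zero, add_zero]
            exact u.2 x⟩
        left_inv := by
          intro p
          apply Subtype.ext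
          exact Prod.ext (hc p).symm rfl
        right_inv := by
          intro u
          rfl }

/-- all powers at once -/
theorem key (b : X → F) (B : Matrix X X F) (hB : ∀ x y, B x y = B y x) :
    (rB b B = 0 ∧ ∀ a, Fintype.card F * cE a b B = kB B) ∨
    (rB b B = kB B ∧ ∃ a0, cE a0 b B = Fintype.card F * kB B ∧
      ∀ a, a ≠ a0 → cE a b B = kB B) := by
  by_cases h : ∃ u : X → F, ∀ x, ∑ y, B x y * u y + b x = 0
  · obtain ⟨x0, hx0⟩ := h
    obtain ⟨h1, h2, h3⟩ := key2 b B hB x0 hx0
    exact Or.inr ⟨h1, _, h2, h3⟩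
  · exact Or.inl (key1 b B hB h)

end

theorem ak2 : Ak2Stmt := by
  classical
  intro F _ _ X _ b B hB
  have hq : (Fintype.card F : ℤ) ≠ 0 := by
    exact_mod_cast Fintype.card_ne_zero
  rcases key b B hB with ⟨h1, h2⟩ | ⟨h1, a0, h2, h3⟩
  · rw [h1]
    have h4 : ∀ a, (Fintype.card F : ℤ) * (cE a b B : ℤ) = (kB B : ℤ) := fun a => by
      exact_mod_cast h2 a
    have h5 : (Fintype.card F : ℤ) * ((Fintype.card F : ℤ) * ∑ a : F, (cE a b B : ℤ) ^ 2) =
        (Fintype.card F : ℤ) * (kB B : ℤ) ^ 2 := by
      calc (Fintype.card F : ℤ) * ((Fintype.card F : ℤ) * ∑ a : F, (cE a b B : ℤ) ^ 2)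
          = ∑ a : F, ((Fintype.card F : ℤ) * (cE a b B : ℤ)) ^ 2 := by
            rw [Finset.mul_sum, Finset.mul_sum]
            exact Finset.sum_congr rfl fun a _ => by ring
        _ = ∑ a : F, (kB B : ℤ) ^ 2 := Finset.sum_congr rfl fun a _ => by rw [h4 a]
        _ = (Fintype.card F : ℤ) * (kB B : ℤ) ^ 2 := by simp
    have h6 := mul_left_cancel₀ hq h5
    rw [h6]; simp
  · rw [h1]
    have h4 : ∑ a : F, (cE a b B : ℤ) ^ 2 =
        ((Fintype.card F : ℤ) * (kB B : ℤ)) ^ 2 + ((Fintype.card F : ℤ) - 1) * (kB B : ℤ) ^ 2 := by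
      rw [← Finset.add_sum_erase _ _ (Finset.mem_univ a0), h2]
      have h5 : ∑ a ∈ Finset.univ.erase a0, (cE a b B : ℤ) ^ 2 =
          ∑ a ∈ Finset.univ.erase a0, (kB B : ℤ) ^ 2 :=
        Finset.sum_congr rfl fun a ha => by rw [h3 a (Finset.ne_of_mem_erase ha)]
      rw [h5, Finset.sum_const, Finset.card_erase_of_mem (Finset.mem_univ _), Finset.card_univ,
        nsmul_eq_mul, Nat.cast_sub Fintype.card_pos]
      push_cast
      ring
    rw [h4]; ring

theorem ak3 : Ak3Stmt := by
  classical
  intro F _ _ X _ b B hB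
  have hq : (Fintype.card F : ℤ) ≠ 0 := by
    exact_mod_cast Fintype.card_ne_zero
  rcases key b B hB with ⟨h1, h2⟩ | ⟨h1, a0, h2, h3⟩
  · rw [h1]
    have h4 : ∀ a, (Fintype.card F : ℤ) * (cE a b B : ℤ) = (kB B : ℤ) := fun a => by
      exact_mod_cast h2 a
    have h5 : (Fintype.card F : ℤ) * ((Fintype.card F : ℤ) ^ 2 * ∑ a : F, (cE a b B : ℤ) ^ 3) =
        (Fintype.card F : ℤ) * (kB B : ℤ) ^ 3 := by
      calc (Fintype.card F : ℤ) * ((Fintype.card F : ℤ) ^ 2 * ∑ a : F, (cE a b B : ℤ) ^ 3)
          = ∑ a : F, ((Fintype.card F : ℤ) * (cE a b B : ℤ)) ^ 3 := by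
            rw [Finset.mul_sum, Finset.mul_sum]
            exact Finset.sum_congr rfl fun a _ => by ring
        _ = ∑ a : F, (kB B : ℤ) ^ 3 := Finset.sum_congr rfl fun a _ => by rw [h4 a]
        _ = (Fintype.card F : ℤ) * (kB B : ℤ) ^ 3 := by simp
    have h6 := mul_left_cancel₀ hq h5
    rw [h6]; simp
  · rw [h1]
    have h4 : ∑ a : F, (cE a b B : ℤ) ^ 3 =
        ((Fintype.card F : ℤ) * (kB B : ℤ)) ^ 3 + ((Fintype.card F : ℤ) - 1) * (kB B : ℤ) ^ 3 := by
      rw [← Finset.add_sum_erase _ _ (Finset.mem_univ a0), h2]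
      have h5 : ∑ a ∈ Finset.univ.erase a0, (cE a b B : ℤ) ^ 3 =
          ∑ a ∈ Finset.univ.erase a0, (kB B : ℤ) ^ 3 :=
        Finset.sum_congr rfl fun a ha => by rw [h3 a (Finset.ne_of_mem_erase ha)]
      rw [h5, Finset.sum_const, Finset.card_erase_of_mem (Finset.mem_univ _), Finset.card_univ,
        nsmul_eq_mul, Nat.cast_sub Fintype.card_pos]
      push_cast
      ring
    rw [h4]; ring

end Pool.Agent.C2.H23
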